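import Pool.Agent.X29.RW.Fin

set_option autoImplicit false

/-! # Sums of independent random vectors and record gaps between primes -/

namespace Pool.Agent.X29.IS

open Finset MeasureTheory Filter ProbabilityTheory
open Pool.Agent.H469R2.NK (e norm_e e_add e_zero)
open Pool.Agent.W147.PS (ff ff_compare ev_pow)
open Pool.Agent.X29.EV (e_meas integersF)
open Pool.Agent.X29.RW (e_int e_sum charZ)

lemma e_re (x : ℝ) : (e x).re = Real.cos (2 * Real.pi * x) := by
  unfold e
  rw [Complex.exp_ofReal_mul_I_re]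

/-- the cosine and the distance to the nearest integer -/
lemma cos_le (y : ℝ) : Real.cos (2 * Real.pi * y) ≤ 1 - 8 * (y - round y) ^ 2 := by
  have h1 : Real.cos (2 * Real.pi * y) = Real.cos (2 * Real.pi * (y - round y)) := by
    have : 2 * Real.pi * (y - round y) = 2 * Real.pi * y - (round y : ℤ) * (2 * Real.pi) := by ring
    rw [this, Real.cos_sub_int_mul_two_pi]
  rw [h1]
  have h2 := abs_sub_round y
  have hpi := Real.pi_pos
  have h3 : |2 * Real.pi * (y - round y)| ≤ Real.pi := by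
    rw [abs_mul, abs_of_pos (by positivity : (0 : ℝ) < 2 * Real.pi)]
    nlinarith
  refine (Real.cos_le_one_sub_mul_cos_sq h3).trans (le_of_eq ?_)
  field_simp
  ring

/-- one variable -/
theorem cf_class {Ω : Type} [MeasurableSpace Ω] (μ : Measure Ω) [IsProbabilityMeasure μ] (Y : Ω → ℤ)
    (hY : Measurable Y) (b p : ℕ) (hb : 2 ≤ b) (hpb : p ∣ b) (w : ℝ)
    (hw : ∀ c : ℤ, μ.real {x | (p : ℤ) ∣ Y x - c} ≤ 1 - w) :
    ‖∫ x, e ((Y x : ℝ) / b) ∂μ‖ ≤ 1 - 2 * w / (b : ℝ) ^ 2 := by
  have hb0 : (0 : ℝ) < b := by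
    have : (2 : ℝ) ≤ b := by exact_mod_cast hb
    linarith
  obtain ⟨z, hz⟩ : ∃ z : ℂ, z = ∫ x, e ((Y x : ℝ) / b) ∂μ := ⟨_, rfl⟩
  obtain ⟨γ, hγ⟩ : ∃ γ : ℝ, γ = z.arg / (2 * Real.pi) := ⟨_, rfl⟩
  have hpi := Real.pi_pos
  have hzγ : (‖z‖ : ℂ) = e (-γ) * z := by
    have h1 := Complex.norm_mul_exp_arg_mul_I z
    have h2 : e γ = Complex.exp (z.arg * Complex.I) := by
      unfold e
      congr 2
      rw [hγ]
      push_cast
      field_simp
    rw [← h2] at h1
    have h3 : e (-γ) * z = (‖z‖ : ℂ) * (e (-γ) * e γ) := by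
      conv_lhs => rw [← h1]
      ring
    rw [h3, ← e_add, neg_add_cancel, e_zero, mul_one]
  have hm : Measurable (fun x => e ((Y x : ℝ) / b)) :=
    (measurable_of_countable (fun v : ℤ => e ((v : ℝ) / b))).comp hY
  have hi : Integrable (fun x => e ((Y x : ℝ) / b)) μ :=
    Integrable.of_bound (C := 1) hm.aestronglyMeasurable (Filter.Eventually.of_forall fun x => (norm_e _).le)
  have hre : ‖z‖ = ∫ x, Real.cos (2 * Real.pi * ((Y x : ℝ) / b - γ)) ∂μ := by
    have h1 : e (-γ) * z = ∫ x, e ((Y x : ℝ) / b - γ) ∂μ := by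
      rw [hz, ← integral_const_mul]
      refine integral_congr_ae (Filter.Eventually.of_forall fun x => ?_)
      simp only
      rw [← e_add]
      congr 1
      ring
    have h2 : (‖z‖ : ℂ).re = (∫ x, e ((Y x : ℝ) / b - γ) ∂μ).re := by rw [hzγ, h1]
    rw [Complex.ofReal_re] at h2
    rw [h2]
    have h3 : Integrable (fun x => e ((Y x : ℝ) / b - γ)) μ := by
      refine Integrable.of_bound (C := 1) ?_ (Filter.Eventually.of_forall fun x => (norm_e _).le)
      exact ((measurable_of_countable (fun v : ℤ => e ((v : ℝ) / b - γ))).comp hY).aestronglyMeasurable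
    have h4 := integral_re (𝕜 := ℂ) h3
    simp only [RCLike.re_to_complex] at h4
    rw [← h4]
    simp only [e_re]
  obtain ⟨A, hA⟩ : ∃ A : Set Ω, A = {x | |(Y x : ℝ) / b - γ - round ((Y x : ℝ) / b - γ)| < 1 / (2 * b)} := ⟨_, rfl⟩
  have hAm : MeasurableSet A := by
    have : A = Y ⁻¹' {v | |(v : ℝ) / b - γ - round ((v : ℝ) / b - γ)| < 1 / (2 * b)} := by rw [hA]; rfl
    rw [this]
    exact hY (Set.to_countable _).measurableSet
  have hμA : μ.real A ≤ 1 - w := by
    rcases Set.eq_empty_or_nonempty A with hem | ⟨x0, hx0⟩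
    · rw [hem, measureReal_empty]
      exact measureReal_nonneg.trans (hw 0)
    · refine le_trans (measureReal_mono ?_) (hw (Y x0))
      intro x hx
      rw [hA, Set.mem_setOf_eq] at hx hx0
      have h1 : |((Y x - Y x0 - b * (round ((Y x : ℝ) / b - γ) - round ((Y x0 : ℝ) / b - γ)) : ℤ) : ℝ)| < 1 := by
        have h2 := abs_lt.1 hx
        have h3 := abs_lt.1 hx0
        have e1 : ((Y x - Y x0 - b * (round ((Y x : ℝ) / b - γ) - round ((Y x0 : ℝ) / b - γ)) : ℤ) : ℝ) =
            b * (((Y x : ℝ) / b - γ - round ((Y x : ℝ) / b - γ)) -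
              ((Y x0 : ℝ) / b - γ - round ((Y x0 : ℝ) / b - γ))) := by
          push_cast
          field_simp
          ring
        rw [e1, abs_mul, abs_of_pos hb0]
        have h4 : |((Y x : ℝ) / b - γ - round ((Y x : ℝ) / b - γ)) -
              ((Y x0 : ℝ) / b - γ - round ((Y x0 : ℝ) / b - γ))| < 1 / b := by
          have e2 : (1 : ℝ) / b = 1 / (2 * b) + 1 / (2 * b) := by field_simp; ring
          rw [e2, abs_lt]
          constructor <;> linarith [h2.1, h2.2, h3.1, h3.2]
        calc (b : ℝ) * _ < b * (1 / b) := mul_lt_mul_of_pos_left h4 hb0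
          _ = 1 := by field_simp
      have h5 : Y x - Y x0 - b * (round ((Y x : ℝ) / b - γ) - round ((Y x0 : ℝ) / b - γ)) = 0 := by
        have h6 : |Y x - Y x0 - b * (round ((Y x : ℝ) / b - γ) - round ((Y x0 : ℝ) / b - γ))| < 1 := by
          exact_mod_cast h1
        exact Int.abs_lt_one_iff.1 h6
      show (p : ℤ) ∣ Y x - Y x0
      have h7 : Y x - Y x0 = b * (round ((Y x : ℝ) / b - γ) - round ((Y x0 : ℝ) / b - γ)) := by linarith
      rw [h7]
      exact Dvd.dvd.mul_right (by exact_mod_cast hpb) _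
  rw [← hz, hre]
  have hpt : ∀ x, Real.cos (2 * Real.pi * ((Y x : ℝ) / b - γ)) ≤
      1 - Aᶜ.indicator (fun _ => 2 / (b : ℝ) ^ 2) x := by
    intro x
    by_cases hx : x ∈ A
    · rw [Set.indicator_of_notMem (by simpa using hx), sub_zero]
      exact Real.cos_le_one _
    · rw [Set.indicator_of_mem (by simpa using hx)]
      refine (cos_le _).trans ?_
      rw [hA, Set.mem_setOf_eq, not_lt] at hx
      have h1 : (1 / (2 * (b : ℝ))) ^ 2 ≤ ((Y x : ℝ) / b - γ - round ((Y x : ℝ) / b - γ)) ^ 2 := by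
        rw [← sq_abs ((Y x : ℝ) / b - γ - round ((Y x : ℝ) / b - γ))]
        exact pow_le_pow_left₀ (by positivity) hx 2
      have h2 : (1 / (2 * (b : ℝ))) ^ 2 * 8 = 2 / (b : ℝ) ^ 2 := by
        field_simp
        norm_num
      linarith
  have hic : Integrable (fun x => Real.cos (2 * Real.pi * ((Y x : ℝ) / b - γ))) μ := by
    refine Integrable.of_bound (C := 1) ?_ (Filter.Eventually.of_forall fun x => Real.abs_cos_le_one _)
    exact ((measurable_of_countable (fun v : ℤ => Real.cos (2 * Real.pi * ((v : ℝ) / b - γ)))).comp hY).aestronglyMeasurable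
  have hii : Integrable (Aᶜ.indicator (fun _ => 2 / (b : ℝ) ^ 2)) μ :=
    (integrable_const _).indicator hAm.compl
  refine (integral_mono (g := fun x => 1 - Aᶜ.indicator (fun _ => 2 / (b : ℝ) ^ 2) x) hic
    ((integrable_const 1).sub hii) hpt).trans ?_
  rw [integral_sub (integrable_const 1) hii, integral_indicator_const _ hAm.compl, integral_const, probReal_univ,
    one_smul, smul_eq_mul, probReal_compl_eq_one_sub hAm]
  have h3 : (0 : ℝ) < 2 / (b : ℝ) ^ 2 := by positivity
  have h4 : w * (2 / (b : ℝ) ^ 2) ≤ (1 - μ.real A) * (2 / (b : ℝ) ^ 2) :=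
    mul_le_mul_of_nonneg_right (by linarith) h3.le
  have h5 : w * (2 / (b : ℝ) ^ 2) = 2 * w / (b : ℝ) ^ 2 := by ring
  linarith

/-- products of expectations -/
theorem cf_prod {Ω ι : Type} [Fintype ι] [MeasurableSpace Ω] (μ : Measure Ω) [IsProbabilityMeasure μ] {d : ℕ}
    (X : ι → Ω → Fin d → ℤ) (hX : ∀ i, Measurable (X i)) (hind : iIndepFun X μ) (q : ℕ) (g : ι → Fin d → ℤ) :
    ∫ x, e (∑ i, ∑ j, (g i j : ℝ) * ((X i x j : ℝ) / q)) ∂μ =
      ∏ i, ∫ x, e (∑ j, (g i j : ℝ) * ((X i x j : ℝ) / q)) ∂μ := by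
  classical
  have hm : ∀ i : ι, Measurable (fun v : Fin d → ℤ => e (∑ j, (g i j : ℝ) * ((v j : ℝ) / q))) :=
    fun i => measurable_of_countable _
  have h1 := hind.integral_fun_prod_comp
    (f := fun (i : ι) (v : Fin d → ℤ) => e (∑ j, (g i j : ℝ) * ((v j : ℝ) / q)))
    (fun i => (hX i).aemeasurable) (fun i => (hm i).aestronglyMeasurable)
  simp only [e_sum (univ : Finset ι)]
  exact h1

end Pool.Agent.X29.IS
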