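import Pool.Agent.X29.IS.Sums

set_option autoImplicit false

/-! # Subset sums and record gaps between primes -/

namespace Pool.Agent.X29.IS

open Finset MeasureTheory Filter ProbabilityTheory
open Pool.Agent.W147.PS (ff ff_compare ev_pow)

/-- the fair coin -/
noncomputable def coin : Measure Bool := (2 : ENNReal)⁻¹ • Measure.count

lemma coin_singleton (c : Bool) : coin {c} = 2⁻¹ := by
  unfold coin
  rw [Measure.smul_apply, Measure.count_singleton, smul_eq_mul, mul_one]

instance : IsProbabilityMeasure coin := ⟨by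
  unfold coin
  rw [Measure.smul_apply, Measure.count_univ, smul_eq_mul]
  simp only [ENat.card_eq_coe_fintype_card, Fintype.card_bool]
  exact ENNReal.inv_mul_cancel (by norm_num) (by norm_num)⟩

lemma coin_le (P : Bool → Prop) (h : ¬ (P true ∧ P false)) : coin.real {c | P c} ≤ 1 - 1 / 2 := by
  have h1 : {c | P c} ⊆ {true} ∨ {c | P c} ⊆ {false} := by
    by_cases ht : P true
    · left
      intro c hc
      cases c
      · exact absurd ⟨ht, hc⟩ h
      · rfl
    · right
      intro c hc
      cases c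
      · rfl
      · exact absurd hc ht
  have h2 : ∀ c : Bool, coin.real {c} = 1 - 1 / 2 := by
    intro c
    rw [Measure.real, coin_singleton, ENNReal.toReal_inv]
    norm_num
  rcases h1 with h1 | h1
  · exact (measureReal_mono h1).trans (h2 true).le
  · exact (measureReal_mono h1).trans (h2 false).le

set_option maxHeartbeats 4000000 in
/-- **Subset sums.** -/
theorem subsets (d : ℕ) (hd : 1 ≤ d) (η : ℝ) (h0 : 0 < η) (h1 : η ≤ 1) :
    ∃ κ : ℝ, 0 < κ ∧ ∀ᶠ M : ℝ in atTop, ∀ (n : ℕ) (a : Fin n → Fin d → ℤ),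
    (∀ p : ℕ, p.Prime → (p : ℝ) ≤ M ^ η → ∀ g : Fin d → ℤ, (∃ j, ¬ (p : ℤ) ∣ g j) →
      ∃ U : Finset (Fin n), M ^ η ≤ U.card ∧ ∀ i ∈ U, ¬ (p : ℤ) ∣ ∑ j, g j * a i j) →
    ∃ T : Finset (Finset (Fin n)), M ^ (-η) * 2 ^ n ≤ T.card ∧ ∀ S ∈ T, ∀ j, ∀ p : ℕ, p.Prime →
      κ * ff M < |(p : ℝ) - ((∑ i ∈ S, a i j : ℤ) : ℝ)| := by
  classical
  obtain ⟨κ, hκ, hc⟩ := sums d 1 hd le_rfl (η / 2) (by linarith) (by linarith)
  refine ⟨κ, hκ, ?_⟩
  filter_upwards [hc, eventually_ge_atTop (1 : ℝ), ev_pow (η / 2) η 2 (by linarith)] with M hcM hM1 hM2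
  intro n a ha
  have hM0 : 0 < M := by linarith
  have hmono : ∀ x y : ℝ, x ≤ y → M ^ x ≤ M ^ y := fun x y h =>
    Real.rpow_le_rpow_of_exponent_le hM1 h
  obtain ⟨f, hf⟩ : ∃ f : Fin n → Bool → Fin d → ℤ, f = fun i c j => if c then a i j else 0 := ⟨_, rfl⟩
  have key := hcM (Fin n → Bool) _ (Measure.pi fun _ => coin) inferInstance (Fin n) _ (fun i ω => f i (ω i))
    (fun i => (measurable_of_finite (f i)).comp (measurable_pi_apply i))
    (iIndepFun_pi (X := fun i => f i) (fun i => (measurable_of_finite (f i)).aemeasurable)) (fun _ => 0) (by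
      intro p hp hpM g hg k
      obtain ⟨U, hU1, hU2⟩ := ha p hp (hpM.trans (hmono _ _ (by linarith))) g hg
      refine ⟨fun i => if i ∈ U then 1 / 2 else 0, fun i _ c => ?_, ?_⟩
      · have h2 : (Measure.pi fun _ : Fin n => coin).real {ω | (p : ℤ) ∣ ∑ j, g j * f i (ω i) j - c} =
            coin.real {b | (p : ℤ) ∣ ∑ j, g j * f i b j - c} := by
          have h3 := (measurePreserving_eval (fun _ : Fin n => coin) i).measure_preimage
            (s := {b | (p : ℤ) ∣ ∑ j, g j * f i b j - c}) (Set.to_countable _).measurableSet.nullMeasurableSet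
          rw [Measure.real, Measure.real, ← h3]
          rfl
        have h6 : coin.real {b | (p : ℤ) ∣ ∑ j, g j * f i b j - c} ≤ 1 - (if i ∈ U then 1 / 2 else 0) := by
          split_ifs with hi
          · apply coin_le
            rintro ⟨ht, hf'⟩
            apply hU2 i hi
            have h3 := dvd_sub ht hf'
            rw [hf] at h3
            simpa using h3
          · rw [sub_zero]
            exact measureReal_le_one
        exact h2.le.trans h6
      · have h4 : ∑ i with (0 : Fin 1) = k, (if i ∈ U then (1 / 2 : ℝ) else 0) = U.card * (1 / 2) := by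
          have h5 : (univ.filter (fun _ : Fin n => (0 : Fin 1) = k)) = univ := by
            apply filter_true_of_mem
            intro _ _
            exact Subsingleton.elim _ _
          rw [h5, sum_ite_mem, univ_inter, sum_const, nsmul_eq_mul]
        rw [h4]
        linarith)
  obtain ⟨W, hW⟩ : ∃ W : Finset (Fin n → Bool), W = univ.filter (fun ω => ∀ (k : Fin 1) (j : Fin d), ∀ p : ℕ,
      p.Prime → κ * ff M < |(p : ℝ) - ((∑ i with (0 : Fin 1) ≤ k, f i (ω i) j : ℤ) : ℝ)|) := ⟨_, rfl⟩
  have hWr : (Measure.pi fun _ : Fin n => coin).real {ω | ∀ (k : Fin 1) (j : Fin d), ∀ p : ℕ,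
      p.Prime → κ * ff M < |(p : ℝ) - ((∑ i with (0 : Fin 1) ≤ k, f i (ω i) j : ℤ) : ℝ)|} =
      W.card * (1 / 2) ^ n := by
    have h2 : {ω : Fin n → Bool | ∀ (k : Fin 1) (j : Fin d), ∀ p : ℕ,
      p.Prime → κ * ff M < |(p : ℝ) - ((∑ i with (0 : Fin 1) ≤ k, f i (ω i) j : ℤ) : ℝ)|} = (W : Set _) := by
      rw [hW]
      ext ω
      simp
    rw [h2, ← sum_measureReal_singleton, ← nsmul_eq_mul, ← sum_const]
    refine sum_congr rfl fun ω _ => ?_
    rw [Measure.real, Measure.pi_singleton]
    simp only [coin_singleton, prod_const, card_univ, Fintype.card_fin]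
    rw [ENNReal.toReal_pow, ENNReal.toReal_inv]
    norm_num
  rw [hWr] at key
  refine ⟨W.image (fun ω => univ.filter (fun i => ω i = true)), ?_, ?_⟩
  · rw [card_image_of_injective _ (by
      intro ω ω' h
      funext i
      have h2 : i ∈ univ.filter (fun i => ω i = true) ↔ i ∈ univ.filter (fun i => ω' i = true) := by
        simp only at h
        rw [h]
      simp only [mem_filter, mem_univ, true_and] at h2
      exact Bool.eq_iff_iff.2 h2)]
    have h5 : M ^ (-η) ≤ M ^ (-(η / 2)) := hmono _ _ (by linarith)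
    have h6 : (0 : ℝ) < 2 ^ n := by positivity
    calc M ^ (-η) * 2 ^ n ≤ M ^ (-(η / 2)) * 2 ^ n := mul_le_mul_of_nonneg_right h5 h6.le
      _ ≤ (W.card * (1 / 2) ^ n) * 2 ^ n := mul_le_mul_of_nonneg_right key h6.le
      _ = W.card := by
          rw [mul_assoc, ← mul_pow]
          norm_num
  · intro S hS j p hp
    rw [mem_image] at hS
    obtain ⟨ω, hω, rfl⟩ := hS
    rw [hW, mem_filter] at hω
    have h7 := hω.2 0 j p hp
    have h8 : (∑ i with (0 : Fin 1) ≤ 0, f i (ω i) j : ℤ) = ∑ i ∈ univ.filter (fun i => ω i = true), a i j := by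
      have h9 : (univ.filter (fun _ : Fin n => (0 : Fin 1) ≤ 0)) = univ := by
        apply filter_true_of_mem
        intro _ _
        exact le_rfl
      rw [h9, sum_filter, hf]
    rw [h8] at h7
    exact h7

end Pool.Agent.X29.IS
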