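import Pool.Agent.X29.IS.Main

set_option autoImplicit false

/-! # Sums of independent random vectors and record gaps between primes: the theorems -/

namespace Pool.Agent.X29.IS

open Finset MeasureTheory Filter ProbabilityTheory
open Pool.Agent.H469R2.NK (e norm_e e_add e_zero)
open Pool.Agent.W147.PS (ff ff_compare ev_pow)
open Pool.Agent.X29.EV (e_meas integersF)
open Pool.Agent.X29.RW (e_int e_sum charZ)

set_option maxHeartbeats 4000000 in
/-- **Sums of independent random vectors.** -/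
theorem sums (d r : ℕ) (hd : 1 ≤ d) (hr : 1 ≤ r) (η : ℝ) (h0 : 0 < η) (h1 : η ≤ 1) :
    ∃ κ : ℝ, 0 < κ ∧ ∀ᶠ M : ℝ in atTop, ∀ (Ω : Type) (_ : MeasurableSpace Ω) (μ : Measure Ω),
    IsProbabilityMeasure μ → ∀ (ι : Type) (_ : Fintype ι) (X : ι → Ω → Fin d → ℤ), (∀ i, Measurable (X i)) →
    iIndepFun X μ → ∀ lev : ι → Fin r,
    (∀ p : ℕ, p.Prime → (p : ℝ) ≤ M ^ η → ∀ g : Fin d → ℤ, (∃ j, ¬ (p : ℤ) ∣ g j) → ∀ k : Fin r,
      ∃ w : ι → ℝ, (∀ i, lev i = k → ∀ a : ℤ, μ.real {x | (p : ℤ) ∣ ∑ j, g j * X i x j - a} ≤ 1 - w i) ∧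
        M ^ η ≤ ∑ i with lev i = k, w i) →
    M ^ (-η) ≤ μ.real {x | ∀ k j, ∀ p : ℕ, p.Prime →
      κ * ff M < |(p : ℝ) - ((∑ i with lev i ≤ k, X i x j : ℤ) : ℝ)|} := by
  classical
  obtain ⟨κ, hκ, hc⟩ := integersF (r * d) (Nat.mul_pos hr hd) (η / 4) (by linarith) (by linarith)
  refine ⟨κ, hκ, ?_⟩
  have hlog : ∀ᶠ M : ℝ in atTop, η / 4 * Real.log M ≤ 2 * M ^ (η / 2) := by
    have h2 := (isLittleO_log_rpow_atTop (show (0 : ℝ) < η / 2 by linarith)).def
      (show (0 : ℝ) < 1 by norm_num)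
    filter_upwards [h2, eventually_ge_atTop 1] with M hM hM1
    rw [Real.norm_of_nonneg (Real.log_nonneg hM1),
      Real.norm_of_nonneg (Real.rpow_nonneg (by linarith) _), one_mul] at hM
    have := Real.log_nonneg hM1
    nlinarith
  filter_upwards [hc, hlog, eventually_ge_atTop (1 : ℝ)] with M hcM hlogM hM1
  intro Ω _ μ hμ ι _ X hX hind lev hlev
  have hM0 : 0 < M := by linarith
  have hmono : ∀ x y : ℝ, x ≤ y → M ^ x ≤ M ^ y := fun x y h =>
    Real.rpow_le_rpow_of_exponent_le hM1 h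
  obtain ⟨V, hV⟩ : ∃ V : Ω → Fin (r * d) → ℤ, V = fun x m =>
    ∑ i with lev i ≤ (finProdFinEquiv.symm m).1, X i x (finProdFinEquiv.symm m).2 := ⟨_, rfl⟩
  have hVm : Measurable V := by
    rw [hV]
    refine measurable_pi_lambda _ fun m => ?_
    refine Finset.measurable_sum _ fun i _ => ?_
    exact (measurable_pi_apply _).comp (hX i)
  have hE0 : 0 ≤ M ^ (-(η / 4)) := Real.rpow_nonneg hM0.le _
  have key := hcM Ω _ μ hμ V hVm (by
    intro q hq hqM ρ
    refine charZ μ V hVm q hq _ ?_ hE0 ρ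
    intro H hH hHq
    have hq0 : (0 : ℝ) < q := by exact_mod_cast hq
    obtain ⟨H', hH'⟩ : ∃ H' : Fin r → Fin d → ℕ, H' = fun k j => H (finProdFinEquiv (k, j)) := ⟨_, rfl⟩
    obtain ⟨g, hg⟩ : ∃ g : ι → Fin d → ℤ, g = fun i j => ∑ k, if lev i ≤ k then (H' k j : ℤ) else 0 :=
      ⟨_, rfl⟩
    have hsum : ∀ x, ∑ m, (H m : ℝ) * ((V x m : ℝ) / q) =
        ∑ i, ∑ j, (g i j : ℝ) * ((X i x j : ℝ) / q) := by
      intro x
      have e1 : ∑ m, (H m : ℝ) * ((V x m : ℝ) / q) =
          ∑ k, ∑ j, (H' k j : ℝ) * (((∑ i with lev i ≤ k, X i x j : ℤ) : ℝ) / q) := by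
        rw [← Equiv.sum_comp finProdFinEquiv, Fintype.sum_prod_type]
        refine sum_congr rfl fun k _ => sum_congr rfl fun j _ => ?_
        rw [hV, hH']
        simp only [Equiv.symm_apply_apply]
      rw [e1]
      have e2 : ∀ k j, (H' k j : ℝ) * (((∑ i with lev i ≤ k, X i x j : ℤ) : ℝ) / q) =
          ∑ i, (if lev i ≤ k then (H' k j : ℝ) else 0) * ((X i x j : ℝ) / q) := by
        intro k j
        push_cast
        rw [sum_div, mul_sum, sum_filter]
        refine sum_congr rfl fun i _ => ?_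
        split_ifs <;> simp
      simp only [e2]
      rw [sum_congr rfl fun k _ => sum_comm, sum_comm]
      refine sum_congr rfl fun i _ => ?_
      rw [sum_comm]
      refine sum_congr rfl fun j _ => ?_
      rw [← sum_mul]
      congr 1
      rw [hg]
      push_cast
      refine sum_congr rfl fun k _ => ?_
      split_ifs <;> simp
    simp only [hsum]
    rw [cf_prod μ X hX hind q g, norm_prod]
    -- the last nonzero block
    have hex : ∃ k, ∃ j, H' k j ≠ 0 := by
      by_contra hcon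
      push Not at hcon
      apply hH
      funext m
      have := hcon (finProdFinEquiv.symm m).1 (finProdFinEquiv.symm m).2
      have h2 : H' (finProdFinEquiv.symm m).1 (finProdFinEquiv.symm m).2 = H m := by
        rw [hH']
        show H (finProdFinEquiv ((finProdFinEquiv.symm m).1, (finProdFinEquiv.symm m).2)) = H m
        rw [Prod.mk.eta, Equiv.apply_symm_apply]
      rw [← h2]
      exact this
    obtain ⟨k, hk, hkmax⟩ : ∃ k, (∃ j, H' k j ≠ 0) ∧ ∀ l, k < l → ∀ j, H' l j = 0 := by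
      obtain ⟨k, hk⟩ := (Finset.univ.filter (fun k => ∃ j, H' k j ≠ 0)).exists_maximal (by
        obtain ⟨k, hk⟩ := hex
        exact ⟨k, mem_filter.2 ⟨mem_univ k, hk⟩⟩)
      refine ⟨k, (mem_filter.1 hk.prop).2, fun l hl j => ?_⟩
      by_contra hne
      have h2 := hk.le_of_ge (mem_filter.2 ⟨mem_univ l, ⟨j, hne⟩⟩) hl.le
      exact absurd hl (not_lt.2 h2)
    -- the reduced fraction
    obtain ⟨D, hD⟩ : ∃ D : ℕ, D = Nat.gcd (Finset.univ.gcd (H' k)) q := ⟨_, rfl⟩
    have hDq : D ∣ q := by rw [hD]; exact Nat.gcd_dvd_right _ _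
    have hDH : ∀ j, D ∣ H' k j := fun j => by
      rw [hD]
      exact (Nat.gcd_dvd_left _ _).trans (Finset.gcd_dvd (mem_univ j))
    have hDpos : 0 < D := Nat.pos_of_dvd_of_pos hDq hq
    obtain ⟨b, hb⟩ := hDq
    choose g' hg' using hDH
    have hb0 : 0 < b := by
      rcases Nat.eq_zero_or_pos b with h | h
      · rw [h] at hb; omega
      · exact h
    have hb2 : 2 ≤ b := by
      by_contra hcon
      have hb1 : b = 1 := by omega
      rw [hb1, mul_one] at hb
      obtain ⟨j, hj⟩ := hk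
      have h2 : H' k j < q := by rw [hH']; exact hHq _
      have h3 : D ∣ H' k j := ⟨g' j, hg' j⟩
      rw [← hb] at h3
      exact hj (Nat.eq_zero_of_dvd_of_lt h3 h2)
    obtain ⟨p, hpp, hpb⟩ := Nat.exists_prime_and_dvd (show b ≠ 1 by omega)
    have hpg : ∃ j, ¬ (p : ℤ) ∣ (g' j : ℤ) := by
      by_contra hcon
      push Not at hcon
      have h2 : D * p ∣ D := by
        conv_rhs => rw [hD]
        apply Nat.dvd_gcd
        · apply Finset.dvd_gcd
          intro j _
          rw [hg' j]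
          exact Nat.mul_dvd_mul_left D (by exact_mod_cast hcon j)
        · conv_rhs => rw [hb]
          exact Nat.mul_dvd_mul_left D hpb
      have h3 := Nat.le_of_dvd hDpos h2
      have h4 := hpp.two_le
      nlinarith
    have hbq : b ≤ q := by
      rw [hb]
      exact Nat.le_mul_of_pos_left b hDpos
    have hbM : (b : ℝ) ≤ M ^ (η / 4) := le_trans (by exact_mod_cast hbq) hqM
    have hpM : (p : ℝ) ≤ M ^ η := by
      have h2 : p ≤ b := Nat.le_of_dvd hb0 hpb
      have h3 : (p : ℝ) ≤ b := by exact_mod_cast h2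
      exact h3.trans (hbM.trans (hmono _ _ (by linarith)))
    obtain ⟨w, hw1, hw2⟩ := hlev p hpp hpM (fun j => (g' j : ℤ)) hpg k
    have hbr : (0 : ℝ) < b := by exact_mod_cast hb0
    have hblock : ∀ i ∈ univ.filter (fun i => lev i = k),
        ‖∫ x, e (∑ j, (g i j : ℝ) * ((X i x j : ℝ) / q)) ∂μ‖ ≤ Real.exp (-(2 / (b : ℝ) ^ 2 * w i)) := by
      intro i hi
      rw [mem_filter] at hi
      have hgi : ∀ j, g i j = H' k j := by
        intro j
        rw [hg]
        show (∑ l, if lev i ≤ l then (H' l j : ℤ) else 0) = H' k j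
        rw [Finset.sum_eq_single k]
        · rw [if_pos hi.2.le]
        · intro l _ hlk
          rcases lt_or_gt_of_ne hlk with hlt | hgt
          · rw [if_neg (by rw [hi.2]; exact not_le.2 hlt)]
          · rw [hkmax l hgt j]
            simp
        · simp
      have hph : ∀ x, ∑ j, (g i j : ℝ) * ((X i x j : ℝ) / q) = ((∑ j, (g' j : ℤ) * X i x j : ℤ) : ℝ) / b := by
        intro x
        push_cast
        rw [sum_div]
        refine sum_congr rfl fun j _ => ?_
        rw [hgi j, hg' j, hb]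
        have hDr : (D : ℝ) ≠ 0 := by exact_mod_cast hDpos.ne'
        push_cast
        field_simp
      simp only [hph]
      have hYm : Measurable (fun x => ∑ j, (g' j : ℤ) * X i x j) :=
        (measurable_of_countable (fun v : Fin d → ℤ => ∑ j, (g' j : ℤ) * v j)).comp (hX i)
      refine (cf_class μ _ hYm b p hb2 hpb (w i) (hw1 i hi.2)).trans ?_
      have h2 := Real.add_one_le_exp (-(2 / (b : ℝ) ^ 2 * w i))
      have h3 : 2 * w i / (b : ℝ) ^ 2 = 2 / (b : ℝ) ^ 2 * w i := by ring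
      linarith
    have hone : ∀ i, ‖∫ x, e (∑ j, (g i j : ℝ) * ((X i x j : ℝ) / q)) ∂μ‖ ≤ 1 := by
      intro i
      refine (norm_integral_le_of_norm_le_const (C := 1) (Filter.Eventually.of_forall
        fun x => (norm_e _).le)).trans ?_
      rw [probReal_univ, mul_one]
    have hprod : ∏ i, ‖∫ x, e (∑ j, (g i j : ℝ) * ((X i x j : ℝ) / q)) ∂μ‖ ≤
        ∏ i ∈ univ.filter (fun i => lev i = k), ‖∫ x, e (∑ j, (g i j : ℝ) * ((X i x j : ℝ) / q)) ∂μ‖ := by
      rw [← prod_sdiff (filter_subset (fun i => lev i = k) univ)]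
      refine mul_le_of_le_one_left (prod_nonneg fun i _ => norm_nonneg _) ?_
      exact prod_le_one (fun i _ => norm_nonneg _) fun i _ => hone i
    refine hprod.trans ((prod_le_prod (fun i _ => norm_nonneg _) hblock).trans ?_)
    rw [← Real.exp_sum, Real.rpow_def_of_pos hM0]
    apply Real.exp_le_exp.2
    rw [sum_neg_distrib, ← mul_sum]
    have h6 : (b : ℝ) ^ 2 ≤ M ^ (η / 2) := by
      have h7 := pow_le_pow_left₀ hbr.le hbM 2
      rw [← Real.rpow_natCast (M ^ (η / 4)), ← Real.rpow_mul hM0.le] at h7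
      refine h7.trans (le_of_eq ?_)
      congr 1
      push_cast
      ring
    have h7 : 0 < (b : ℝ) ^ 2 := by positivity
    have h8 : 2 * M ^ (η / 2) ≤ 2 / (b : ℝ) ^ 2 * ∑ i with lev i = k, w i := by
      rw [div_mul_eq_mul_div, le_div_iff₀ h7]
      have h9 : M ^ (η / 2) * (b : ℝ) ^ 2 ≤ M ^ η := by
        calc M ^ (η / 2) * (b : ℝ) ^ 2 ≤ M ^ (η / 2) * M ^ (η / 2) :=
              mul_le_mul_of_nonneg_left h6 (Real.rpow_nonneg hM0.le _)
          _ = M ^ η := by rw [← Real.rpow_add hM0]; congr 1; ring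
      linarith
    linarith)
  refine (hmono _ _ (by linarith)).trans (key.trans (measureReal_mono ?_))
  intro x hx k j p hp
  have h2 := hx (finProdFinEquiv (k, j)) p hp
  rw [hV] at h2
  simp only [Equiv.symm_apply_apply] at h2
  exact h2

end Pool.Agent.X29.IS
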